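import Mathlib

set_option autoImplicit false

namespace Pool.Agent.OPG.Katz

/-- Composition of a multiplicative character with the norm. -/
theorem exists_norm_char {K L : Type} [Field K] [Fintype K] [Field L] [Fintype L] [Algebra K L]
    (χ : MulChar K ℂ) (hχ : χ ≠ 1) :
    ∃ χ' : MulChar L ℂ, χ' ≠ 1 ∧ ∀ y : L, χ' y = χ (Algebra.norm K y) := by
  classical
  let χ' : MulChar L ℂ :=
    { toFun := fun y => χ (Algebra.norm K y)
      map_one' := by rw [map_one, map_one]
      map_mul' := fun x y => by rw [map_mul, map_mul]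
      map_nonunit' := fun y hy => by
        have h0 : y = 0 := by
          by_contra h
          exact hy (isUnit_iff_ne_zero.2 h)
        rw [h0, Algebra.norm_zero]
        exact MulChar.map_zero χ }
  refine ⟨χ', ?_, fun y => rfl⟩
  intro h1
  apply hχ
  rw [MulChar.eq_one_iff]
  intro a
  obtain ⟨y, hy⟩ := FiniteField.norm_surjective K L (a : K)
  have hy0 : y ≠ 0 := by
    intro h0
    rw [h0, Algebra.norm_zero] at hy
    exact a.ne_zero hy.symm
  have h2 : χ' y = 1 := by
    rw [h1]
    exact MulChar.one_apply (isUnit_iff_ne_zero.2 hy0)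
  change χ (Algebra.norm K y) = 1 at h2
  rw [hy] at h2
  exact h2

end Pool.Agent.OPG.Katz
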